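import Pool.Agent.Helper69.LW.Defs

/-!
# MP_687a20_mp : basic facts on test functions, integrability
-/

open MeasureTheory Set Filter Topology
open scoped ContDiff

namespace LeakyWire

variable {f g u : ℝ × ℝ → ℝ}

theorem hp_meas : MeasurableSet hp := measurableSet_Ioi.prod MeasurableSet.univ

theorem mem_hp {p : ℝ × ℝ} : p ∈ hp ↔ 0 < p.1 := by simp [hp]

theorem restrict_hp : (volume : Measure (ℝ × ℝ)).restrict hp =
    ((volume : Measure ℝ).restrict (Ioi 0)).prod (volume : Measure ℝ) := by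
  rw [hp, Measure.volume_eq_prod, ← Measure.prod_restrict, Measure.restrict_univ]

/-! ### Test functions -/

theorem Test.cont (h : Test f) : Continuous f := h.1.continuous

theorem Test.diff (h : Test f) : Differentiable ℝ f := h.1.differentiable (by simp)

theorem Test.test_d1 (h : Test f) : Test (d1 f) := by
  refine ⟨?_, ?_⟩
  · have h1 : ContDiff ℝ ∞ (fderiv ℝ f) := h.1.fderiv_right (by simp)
    exact h1.clm_apply contDiff_const
  · exact (h.2.fderiv ℝ).comp_left (g := fun L : ℝ × ℝ →L[ℝ] ℝ => L (1, 0)) (by simp)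

theorem Test.test_d2 (h : Test f) : Test (d2 f) := by
  refine ⟨?_, ?_⟩
  · have h1 : ContDiff ℝ ∞ (fderiv ℝ f) := h.1.fderiv_right (by simp)
    exact h1.clm_apply contDiff_const
  · exact (h.2.fderiv ℝ).comp_left (g := fun L : ℝ × ℝ →L[ℝ] ℝ => L (0, 1)) (by simp)

theorem Test.add (hf : Test f) (hg : Test g) : Test (fun p => f p + g p) :=
  ⟨hf.1.add hg.1, hf.2.add hg.2⟩

theorem Test.sub (hf : Test f) (hg : Test g) : Test (fun p => f p - g p) := by
  refine ⟨hf.1.sub hg.1, ?_⟩
  have h1 : (fun p => f p - g p) = f + -g := by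
    funext p
    simp [sub_eq_add_neg]
  rw [h1]
  exact hf.2.add hg.2.neg

theorem Test.mul (hf : Test f) (hg : Test g) : Test (fun p => f p * g p) :=
  ⟨hf.1.mul hg.1, hf.2.mul_right⟩

theorem Test.smul (hf : Test f) (c : ℝ) : Test (fun p => c * f p) :=
  ⟨contDiff_const.mul hf.1, hf.2.mul_left⟩

theorem hasDerivAt_1 (hf : Differentiable ℝ f) (s t : ℝ) :
    HasDerivAt (fun s => f (s, t)) (d1 f (s, t)) s := by
  have h1 : HasDerivAt (fun s : ℝ => (s, t)) ((1 : ℝ), (0 : ℝ)) s :=
    (hasDerivAt_id s).prodMk (hasDerivAt_const s t)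
  exact (hf (s, t)).hasFDerivAt.comp_hasDerivAt s h1

theorem hasDerivAt_2 (hf : Differentiable ℝ f) (s t : ℝ) :
    HasDerivAt (fun t => f (s, t)) (d2 f (s, t)) t := by
  have h1 : HasDerivAt (fun t : ℝ => (s, t)) ((0 : ℝ), (1 : ℝ)) t :=
    (hasDerivAt_const t s).prodMk (hasDerivAt_id t)
  exact (hf (s, t)).hasFDerivAt.comp_hasDerivAt t h1

/-- A box containing the support. -/
theorem Test.box (h : Test f) : ∃ L : ℝ, 0 < L ∧ ∀ p : ℝ × ℝ, (L < |p.1| ∨ L < |p.2|) → f p = 0 := by
  obtain ⟨L, hL⟩ := h.2.isCompact.isBounded.exists_norm_le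
  refine ⟨max L 1, by positivity, fun p hp => ?_⟩
  by_contra hne
  have h1 := hL p (subset_tsupport f hne)
  rw [Prod.norm_def, Real.norm_eq_abs, Real.norm_eq_abs] at h1
  have h2 : |p.1| ≤ L := (le_max_left _ _).trans h1
  have h3 : |p.2| ≤ L := (le_max_right _ _).trans h1
  rcases hp with hp | hp
  · linarith [le_max_left L 1]
  · linarith [le_max_left L 1]

theorem Test.bdd (h : Test f) : ∃ R : ℝ, 0 < R ∧ ∀ p, |f p| ≤ R := by
  obtain ⟨C, hC⟩ := h.2.exists_bound_of_continuous h.cont
  exact ⟨max C 1, by positivity, fun p => (hC p).trans (le_max_left _ _)⟩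

/-! ### The ground state -/

theorem gs_pos (t : ℝ) : 0 < gs t := Real.exp_pos _

theorem gs_le_one (t : ℝ) : gs t ≤ 1 := by
  unfold gs
  exact Real.exp_le_one_iff.mpr (by have := abs_nonneg t; linarith)

theorem gs_zero : gs 0 = 1 := by simp [gs]

theorem gs_neg (t : ℝ) : gs (-t) = gs t := by simp [gs]

theorem gs_cont : Continuous gs := by
  unfold gs
  fun_prop

theorem gs_integrable : Integrable gs := by
  have h1 : IntegrableOn gs (Ioi 0) := by
    refine (exp_neg_integrableOn_Ioi 0 (b := 1 / 2) (by norm_num)).congr_fun (fun t ht => ?_)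
      measurableSet_Ioi
    simp only [gs, abs_of_pos (mem_Ioi.mp ht)]
    congr 1
    ring
  have h2 : IntegrableOn gs (Iic 0) := by
    refine (integrableOn_exp_mul_Iic (a := 1 / 2) (by norm_num) 0).congr_fun (fun t ht => ?_)
      measurableSet_Iic
    simp only [gs, abs_of_nonpos (mem_Iic.mp ht)]
    congr 1
    ring
  rw [← integrableOn_univ, ← Iic_union_Ioi (a := (0 : ℝ))]
  exact h2.union h1

theorem gs_sq_eq (t : ℝ) : gs t ^ 2 = Real.exp (-|t|) := by
  unfold gs
  rw [← Real.exp_nat_mul]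
  congr 1
  push_cast
  ring

theorem gs_sq_le (t : ℝ) : gs t ^ 2 ≤ gs t := by
  nlinarith [gs_pos t, gs_le_one t]

theorem gs_sq_integral : ∫ t, gs t ^ 2 = 2 := by
  have h1 : (fun t => gs t ^ 2) = fun t => (fun x => Real.exp (-x)) |t| := by
    funext t
    exact gs_sq_eq t
  rw [h1, integral_comp_abs (f := fun x => Real.exp (-x)), integral_exp_neg_Ioi_zero]
  norm_num

theorem sign_meas : Measurable Real.sign := by
  unfold Real.sign
  exact Measurable.ite measurableSet_Iio measurable_const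
    (Measurable.ite measurableSet_Ioi measurable_const measurable_const)

theorem abs_sign_le (t : ℝ) : |Real.sign t| ≤ 1 := by
  rcases Real.sign_apply_eq t with h | h | h <;> simp [h]

theorem sign_neg (t : ℝ) : Real.sign (-t) = -Real.sign t := Real.sign_neg

/-! ### Nice functions -/

/-- Measurable functions bounded by a multiple of the ground state, vanishing for large `|s|`. -/
structure Nice (f : ℝ × ℝ → ℝ) : Prop where
  meas : Measurable f
  bdd : ∃ R L : ℝ, 0 ≤ R ∧ 0 ≤ L ∧ ∀ p : ℝ × ℝ, |f p| ≤ R * gs p.2 ∧ (L < |p.1| → f p = 0)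

theorem Test.nice (h : Test f) : Nice f := by
  refine ⟨h.cont.measurable, ?_⟩
  obtain ⟨L, hL0, hL⟩ := h.box
  obtain ⟨R, hR0, hR⟩ := h.bdd
  refine ⟨R * Real.exp (L / 2), L, by positivity, hL0.le, fun p => ⟨?_, fun hp => hL p (Or.inl hp)⟩⟩
  by_cases hp : L < |p.2|
  · rw [hL p (Or.inr hp), abs_zero]
    have := gs_pos p.2
    positivity
  · refine (hR p).trans ?_
    rw [mul_assoc]
    refine le_mul_of_one_le_right hR0.le ?_
    unfold gs
    rw [← Real.exp_add]
    refine Real.one_le_exp ?_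
    have := not_lt.mp hp
    linarith

theorem Nice.add (hf : Nice f) (hg : Nice g) : Nice (fun p => f p + g p) := by
  obtain ⟨R, L, hR, hL, h⟩ := hf.bdd
  obtain ⟨R', L', hR', hL', h'⟩ := hg.bdd
  refine ⟨hf.meas.add hg.meas, R + R', max L L', by positivity, by positivity, fun p => ⟨?_, ?_⟩⟩
  · rw [add_mul]
    exact (abs_add_le _ _).trans (add_le_add (h p).1 (h' p).1)
  · intro hp
    rw [(h p).2 ((le_max_left _ _).trans_lt hp), (h' p).2 ((le_max_right _ _).trans_lt hp), add_zero]

theorem Nice.const_mul (hf : Nice f) (c : ℝ) : Nice (fun p => c * f p) := by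
  obtain ⟨R, L, hR, hL, h⟩ := hf.bdd
  refine ⟨hf.meas.const_mul c, |c| * R, L, by positivity, hL, fun p => ⟨?_, fun hp => ?_⟩⟩
  · rw [abs_mul, mul_assoc]
    exact mul_le_mul_of_nonneg_left (h p).1 (abs_nonneg c)
  · rw [(h p).2 hp, mul_zero]

theorem Nice.neg (hf : Nice f) : Nice (fun p => -f p) := by
  have := hf.const_mul (-1)
  simpa using this

theorem Nice.sub (hf : Nice f) (hg : Nice g) : Nice (fun p => f p - g p) := by
  have := hf.add hg.neg
  simpa [sub_eq_add_neg] using this

/-- Product with a bounded measurable function. -/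
theorem Nice.bdd_mul (hf : Nice f) {b : ℝ × ℝ → ℝ} (hb : Measurable b) (B : ℝ)
    (hB : ∀ p, |b p| ≤ B) : Nice (fun p => b p * f p) := by
  obtain ⟨R, L, hR, hL, h⟩ := hf.bdd
  have hB0 : 0 ≤ B := (abs_nonneg _).trans (hB 0)
  refine ⟨hb.mul hf.meas, B * R, L, by positivity, hL, fun p => ⟨?_, fun hp => ?_⟩⟩
  · rw [abs_mul, mul_assoc]
    exact mul_le_mul (hB p) (h p).1 (abs_nonneg _) hB0
  · rw [(h p).2 hp, mul_zero]

theorem Nice.bounded (hf : Nice f) : ∃ B : ℝ, ∀ p, |f p| ≤ B := by
  obtain ⟨R, L, hR, hL, h⟩ := hf.bdd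
  exact ⟨R, fun p => (h p).1.trans (mul_le_of_le_one_right hR (gs_le_one _))⟩

theorem Nice.mul (hf : Nice f) (hg : Nice g) : Nice (fun p => f p * g p) := by
  obtain ⟨B, hB⟩ := hf.bounded
  exact hg.bdd_mul hf.meas B hB

theorem Nice.sq (hf : Nice f) : Nice (fun p => f p ^ 2) := by
  have := hf.mul hf
  simpa [pow_two] using this

theorem Nice.sign_mul (hf : Nice f) : Nice (fun p => Real.sign p.2 * f p) :=
  hf.bdd_mul (sign_meas.comp measurable_snd) 1 fun p => abs_sign_le p.2

/-- Tensor products with the ground state. -/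
theorem nice_gs {g : ℝ → ℝ} (hg : Continuous g) (hc : HasCompactSupport g) :
    Nice (fun p : ℝ × ℝ => g p.1 * gs p.2) := by
  obtain ⟨R, hR⟩ := hc.exists_bound_of_continuous hg
  obtain ⟨L, hL⟩ := hc.isCompact.isBounded.exists_norm_le
  refine ⟨(hg.measurable.comp measurable_fst).mul (gs_cont.measurable.comp measurable_snd),
    max R 0, max L 0, by positivity, by positivity, fun p => ⟨?_, fun hp => ?_⟩⟩
  · rw [abs_mul, abs_of_pos (gs_pos p.2)]
    exact mul_le_mul_of_nonneg_right ((hR p.1).trans (le_max_left _ _)) (gs_pos _).le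
  · have : g p.1 = 0 := by
      by_contra hne
      have h1 := hL p.1 (subset_tsupport g hne)
      rw [Real.norm_eq_abs] at h1
      linarith [le_max_left L 0]
    rw [this, zero_mul]

theorem Nice.integrable (hf : Nice f) : Integrable f := by
  obtain ⟨R, L, hR, hL, h⟩ := hf.bdd
  have h1 : Integrable ((Icc (-L) L).indicator fun _ : ℝ => R) := by
    rw [integrable_indicator_iff measurableSet_Icc]
    exact integrableOn_const (by simp)
  have h2 : Integrable (fun p : ℝ × ℝ => ((Icc (-L) L).indicator (fun _ : ℝ => R)) p.1 * gs p.2) :=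
    h1.mul_prod gs_integrable
  refine h2.mono' hf.meas.aestronglyMeasurable (Eventually.of_forall fun p => ?_)
  by_cases hp : p.1 ∈ Icc (-L) L
  · rw [indicator_of_mem hp, Real.norm_eq_abs]
    exact (h p).1
  · rw [(h p).2 (by
      rw [mem_Icc, ← abs_le] at hp
      exact not_le.mp hp), norm_zero]
    refine mul_nonneg (indicator_nonneg (fun _ _ => hR) _) (gs_pos _).le

theorem Nice.integrableOn (hf : Nice f) (s : Set (ℝ × ℝ)) : IntegrableOn f s :=
  hf.integrable.integrableOn

theorem Nice.slice (hf : Nice f) (s : ℝ) : Integrable (fun t => f (s, t)) := by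
  obtain ⟨R, L, hR, hL, h⟩ := hf.bdd
  refine (gs_integrable.const_mul R).mono'
    (hf.meas.comp (measurable_const.prodMk measurable_id)).aestronglyMeasurable
    (Eventually.of_forall fun t => ?_)
  rw [Real.norm_eq_abs]
  exact (h (s, t)).1

/-- Fubini in the half plane. -/
theorem Nice.fubini (hf : Nice f) : ∫ p in hp, f p = ∫ s in Ioi (0 : ℝ), ∫ t, f (s, t) := by
  rw [restrict_hp, integral_prod]
  have := hf.integrableOn hp
  rwa [IntegrableOn, restrict_hp] at this

theorem Nice.fubini_integrable (hf : Nice f) :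
    IntegrableOn (fun s => ∫ t, f (s, t)) (Ioi (0 : ℝ)) := by
  have := hf.integrableOn hp
  rw [IntegrableOn, restrict_hp] at this
  exact this.integral_prod_left

/-- Fubini in the half plane, other order. -/
theorem Nice.fubini' (hf : Nice f) : ∫ p in hp, f p = ∫ t, ∫ s in Ioi (0 : ℝ), f (s, t) := by
  rw [restrict_hp, integral_prod_symm]
  have := hf.integrableOn hp
  rwa [IntegrableOn, restrict_hp] at this

theorem Test.nice_D (hu : Test u) : Nice (D u) := by
  have h1 := hu.test_d2.nice.add ((hu.nice.sign_mul).const_mul (1 / 2))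
  have h2 : (fun p => d2 u p + 1 / 2 * (Real.sign p.2 * u p)) = D u := by
    funext p
    unfold D
    ring
  rwa [h2] at h1

end LeakyWire
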