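import Mathlib

/-!
# MP_687a20_mp : the leaky broken line, definitions
-/

open MeasureTheory Set Filter Topology
open scoped ContDiff

namespace LeakyWire

/-- Partial derivatives of a function of two variables. -/
noncomputable def d1 (f : ℝ × ℝ → ℝ) (p : ℝ × ℝ) : ℝ := fderiv ℝ f p (1, 0)

/-- Partial derivatives of a function of two variables. -/
noncomputable def d2 (f : ℝ × ℝ → ℝ) (p : ℝ × ℝ) : ℝ := fderiv ℝ f p (0, 1)

/-- Test functions: smooth and compactly supported. -/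
def Test (f : ℝ × ℝ → ℝ) : Prop := ContDiff ℝ ∞ f ∧ HasCompactSupport f

/-- The quadratic form `‖∇f‖² - α ∫_Γ f²` of the leaky wire; `Γ = Γ_θ` is the union of the two
half-lines from the origin in the directions `(cos (θ/2), sin (θ/2))` and
`(-cos (θ/2), sin (θ/2))`, which form the angle `π - θ`. -/
noncomputable def form (α θ : ℝ) (f : ℝ × ℝ → ℝ) : ℝ :=
  (∫ p, (d1 f p ^ 2 + d2 f p ^ 2)) -
    α * ((∫ s in Ioi (0 : ℝ), f (s * Real.cos (θ / 2), s * Real.sin (θ / 2)) ^ 2) +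
      ∫ s in Ioi (0 : ℝ), f (-(s * Real.cos (θ / 2)), s * Real.sin (θ / 2)) ^ 2)

/-- The square of the `L²` norm. -/
noncomputable def mass (f : ℝ × ℝ → ℝ) : ℝ := ∫ p, f p ^ 2

/-- The lowest point of the spectrum of `H_{α,Γ_θ}`. -/
noncomputable def lam (α θ : ℝ) : ℝ :=
  sInf {r | ∃ f, Test f ∧ mass f = 1 ∧ r = form α θ f}

/-! ### The half plane -/

/-- The half plane. -/
def hp : Set (ℝ × ℝ) := Ioi 0 ×ˢ univ

/-- The squared norm in the half plane. -/
noncomputable def N (u : ℝ × ℝ → ℝ) : ℝ := ∫ p in hp, u p ^ 2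

/-- The form of one half of the wire in the half plane `x > 0`. -/
noncomputable def hform (θ : ℝ) (f : ℝ × ℝ → ℝ) : ℝ :=
  (∫ p in hp, (d1 f p ^ 2 + d2 f p ^ 2)) -
    ∫ s in Ioi (0 : ℝ), f (s * Real.cos (θ / 2), s * Real.sin (θ / 2)) ^ 2

/-- The same form after rotation and shear. -/
noncomputable def q (τ : ℝ) (u : ℝ × ℝ → ℝ) : ℝ :=
  (∫ p in hp, ((1 + τ ^ 2) * d1 u p ^ 2 - 2 * τ * (d1 u p * d2 u p) + d2 u p ^ 2)) -
    ∫ s in Ioi (0 : ℝ), u (s, 0) ^ 2

/-- The rotation and shear. -/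
noncomputable def half (θ : ℝ) (f : ℝ × ℝ → ℝ) (p : ℝ × ℝ) : ℝ :=
  f (Real.cos (θ / 2) * p.1, Real.sin (θ / 2) * p.1 + p.2 / Real.cos (θ / 2))

/-- The inverse of `half`. -/
noncomputable def unhalf (θ : ℝ) (u : ℝ × ℝ → ℝ) (p : ℝ × ℝ) : ℝ :=
  u (p.1 / Real.cos (θ / 2), Real.cos (θ / 2) * p.2 - Real.sin (θ / 2) * p.1)

/-- The mirror image. -/
def refl (f : ℝ × ℝ → ℝ) (p : ℝ × ℝ) : ℝ := f (-p.1, p.2)

/-- The transversal ground state `e^{-|t|/2}`. -/
noncomputable def gs (t : ℝ) : ℝ := Real.exp (-|t| / 2)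

/-- The derivative relative to the ground state, `D u = u_t + (sgn t / 2) u`. -/
noncomputable def D (u : ℝ × ℝ → ℝ) (p : ℝ × ℝ) : ℝ := d2 u p + Real.sign p.2 / 2 * u p

/-- The form relative to the ground state. -/
noncomputable def V (u : ℝ × ℝ → ℝ) : ℝ := ∫ p in hp, (d1 u p ^ 2 + D u p ^ 2)

/-- The boundary functional. -/
noncomputable def W (u : ℝ × ℝ → ℝ) : ℝ := ∫ t : ℝ, Real.sign t * gs t * u (0, t)

/-- The component along the ground state. -/
noncomputable def gg (u : ℝ × ℝ → ℝ) (s : ℝ) : ℝ := (1 / 2) * ∫ t, u (s, t) * gs t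

/-- The orthogonal component. -/
noncomputable def vv (u : ℝ × ℝ → ℝ) (p : ℝ × ℝ) : ℝ := u p - gg u p.1 * gs p.2

/-- The derivative of the orthogonal component along the wire. -/
noncomputable def vs (u : ℝ × ℝ → ℝ) (p : ℝ × ℝ) : ℝ := d1 u p - deriv (gg u) p.1 * gs p.2

/-- The form of the orthogonal component. -/
noncomputable def VV (u : ℝ × ℝ → ℝ) : ℝ := ∫ p in hp, (vs u p ^ 2 + D u p ^ 2)

/-- Odd functions of the transversal variable. -/
def Odd2 (w : ℝ × ℝ → ℝ) : Prop := ∀ s t, w (s, -t) = -w (s, t)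

/-- The best constant in `W² ≤ S V` for odd functions. -/
noncomputable def SS : ℝ := sSup {r | ∃ w, Test w ∧ Odd2 w ∧ r = W w ^ 2 / V w}

end LeakyWire
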