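import Pool.Agent.Helper16.LW.CO
import Pool.Agent.Helper22.LW.OR
import Pool.Agent.Helper79.LW.Ground

/-!
# MP_687a20_mp : module LO, the lower bound
-/

open MeasureTheory Set Filter Topology
open scoped ContDiff

namespace LeakyWire

variable {f u w : ℝ × ℝ → ℝ}

theorem VV_eq (hu : Test u) : VV u = (∫ p in hp, vs u p ^ 2) + ∫ p in hp, D u p ^ 2 :=
  integral_add ((nice_vs hu).sq.integrableOn hp) (hu.nice_D.sq.integrableOn hp)

theorem X_le (hu : Test u) : 2 * |∫ p in hp, vs u p * D u p| ≤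
    (∫ p in hp, vs u p ^ 2) + ∫ p in hp, D u p ^ 2 := by
  have h1 : |∫ p in hp, vs u p * D u p| ≤ ∫ p in hp, (vs u p ^ 2 + D u p ^ 2) / 2 := by
    refine (abs_integral_le_integral_abs).trans ?_
    refine integral_mono_ae ((nice_vs hu).mul hu.nice_D |>.integrableOn hp).abs
      (((nice_vs hu).sq.integrableOn hp).add (hu.nice_D.sq.integrableOn hp) |>.div_const 2)
      (Eventually.of_forall fun p => ?_)
    simp only [abs_mul]
    have := sq_nonneg (|vs u p| - |D u p|)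
    have e1 := sq_abs (vs u p)
    have e2 := sq_abs (D u p)
    nlinarith
  have h2 : ∫ p in hp, (vs u p ^ 2 + D u p ^ 2) / 2 = VV u / 2 := integral_div _ _
  rw [h2, VV_eq hu] at h1
  linarith

theorem Z_le (hu : Test u) : |∫ t, Real.sign t * vv u (0, t) ^ 2| ≤
    4 * (∫ p in hp, D u p ^ 2) + ∫ p in hp, vs u p ^ 2 := by
  have h0 : Integrable (fun t => vv u (0, t) ^ 2) := (nice_vv hu).sq.slice 0
  have h1 : |∫ t, Real.sign t * vv u (0, t) ^ 2| ≤ ∫ t, vv u (0, t) ^ 2 := by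
    refine (abs_integral_le_integral_abs).trans ?_
    refine integral_mono_ae ((nice_vv hu).sq.sign_mul.slice 0).abs h0
      (Eventually.of_forall fun t => ?_)
    simp only [abs_mul, abs_pow, sq_abs]
    exact mul_le_of_le_one_left (sq_nonneg _) (abs_sign_le t)
  have h2 := trace_le hu
  have h3 := poincare hu
  linarith

theorem cube_aux {t : ℝ} (ht : 0 < t) (ht1 : t ≤ 1 / 100) :
    1 ≤ (1 + 100 * t) * (1 - 4 * t) ^ 3 := by
  have h1 : 1 - 12 * t ≤ (1 - 4 * t) ^ 3 := by nlinarith [mul_pos ht ht]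
  have h2 : (1 + 100 * t) * (1 - 12 * t) ≤ (1 + 100 * t) * (1 - 4 * t) ^ 3 :=
    mul_le_mul_of_nonneg_left h1 (by linarith)
  nlinarith

/-- The purely numerical part of the lower bound. -/
theorem low_aux {t S G P Q X Y Z w g0 A Nn qq nv : ℝ} (ht : 0 < t) (ht1 : t ≤ 1 / 100) (hS : 0 < S)
    (hG : 0 ≤ G) (hP : 0 ≤ P) (hQ : 0 ≤ Q) (hA : 0 ≤ A) (hnv : 0 ≤ nv)
    (h1 : qq + Nn / 4 = (1 + t ^ 2) * (2 * G + P) - 2 * t * (X + Y) + Q - t / 2 * (2 * g0 * w + Z))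
    (hX : 2 * |X| ≤ P + Q) (hY : 2 * |Y| ≤ 2 * G + Q) (hZ : |Z| ≤ 4 * Q + P)
    (hw : w ^ 2 ≤ S * (P + Q)) (hN : Nn = 2 * A + nv)
    (hone : ∀ ε : ℝ, 0 < ε → ε * g0 ^ 2 ≤ G + ε ^ 2 * A) :
    -((1 / 4 + (S * t ^ 2 / 8) ^ 2 * (1 + 100 * t)) * Nn) ≤ qq := by
  have hb : 0 < 1 - 4 * t := by linarith
  -- first reduction
  have e1 : (1 - 4 * t) * (2 * G + P + Q) - t * (g0 * w) ≤ qq + Nn / 4 := by
    have a1 := mul_le_mul_of_nonneg_left ((le_abs_self X)) ht.le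
    have a2 := mul_le_mul_of_nonneg_left ((le_abs_self Y)) ht.le
    have a3 := mul_le_mul_of_nonneg_left ((le_abs_self Z)) ht.le
    have a4 := mul_le_mul_of_nonneg_left hX ht.le
    have a5 := mul_le_mul_of_nonneg_left hY ht.le
    have a6 := mul_le_mul_of_nonneg_left hZ ht.le
    have a7 : 0 ≤ t ^ 2 * (2 * G + P) := by positivity
    have a8 : 0 ≤ t * G := by positivity
    have a9 : 0 ≤ t * P := by positivity
    have a10 : 0 ≤ t * Q := by positivity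
    nlinarith
  -- absorb the boundary term
  have e2 : t * (g0 * w) ≤ (1 - 4 * t) * (P + Q) + t ^ 2 * S * g0 ^ 2 / (4 * (1 - 4 * t)) := by
    have b1 : 0 ≤ (2 * (1 - 4 * t) * w - t * S * g0) ^ 2 := sq_nonneg _
    have b2 : t * (g0 * w) ≤ (1 - 4 * t) * w ^ 2 / S + t ^ 2 * S * g0 ^ 2 / (4 * (1 - 4 * t)) := by
      rw [← sub_nonneg]
      have : (1 - 4 * t) * w ^ 2 / S + t ^ 2 * S * g0 ^ 2 / (4 * (1 - 4 * t)) - t * (g0 * w) =
          (2 * (1 - 4 * t) * w - t * S * g0) ^ 2 / (4 * (1 - 4 * t) * S) := by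
        field_simp
        ring
      rw [this]
      positivity
    have b3 : (1 - 4 * t) * w ^ 2 / S ≤ (1 - 4 * t) * (P + Q) := by
      rw [div_le_iff₀ hS]
      nlinarith [mul_le_mul_of_nonneg_left hw hb.le]
    linarith
  set e : ℝ := S * t ^ 2 / (8 * (1 - 4 * t) ^ 2) with he
  have he0 : 0 < e := by positivity
  have e3 := hone e he0
  have e4 : 2 * (1 - 4 * t) * (e * g0 ^ 2) = t ^ 2 * S * g0 ^ 2 / (4 * (1 - 4 * t)) := by
    rw [he]
    field_simp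
    ring
  have e5 : -(2 * (1 - 4 * t) * (e ^ 2 * A)) ≤ qq + Nn / 4 := by
    have := mul_le_mul_of_nonneg_left e3 (by linarith : (0 : ℝ) ≤ 2 * (1 - 4 * t))
    nlinarith
  have e6 : 2 * (1 - 4 * t) * (e ^ 2 * A) ≤ (1 - 4 * t) * e ^ 2 * Nn := by
    have : 0 ≤ (1 - 4 * t) * e ^ 2 * nv := by positivity
    rw [hN]
    nlinarith
  have hNn : 0 ≤ Nn := by rw [hN]; positivity
  have e7 : (1 - 4 * t) * e ^ 2 ≤ (S * t ^ 2 / 8) ^ 2 * (1 + 100 * t) := by
    have c1 : (1 - 4 * t) * e ^ 2 = (S * t ^ 2 / 8) ^ 2 / (1 - 4 * t) ^ 3 := by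
      rw [he]
      field_simp
    rw [c1, div_le_iff₀ (by positivity), mul_assoc]
    exact le_mul_of_one_le_right (by positivity) (cube_aux ht ht1)
  have e8 := mul_le_mul_of_nonneg_right e7 hNn
  nlinarith

theorem lower : ∃ a τ₀ : ℝ, 0 < τ₀ ∧ ∀ τ, 0 < τ → τ < τ₀ → ∀ u, Test u →
    -((1 / 4 + (SS * τ ^ 2 / 8) ^ 2 * (1 + a * τ)) * N u) ≤ q τ u := by
  refine ⟨100, 1 / 100, by norm_num, fun τ h0 h1 u hu => ?_⟩
  have hg := ground hu τ
  rw [orth1 hu, orthX hu, orthB hu] at hg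
  refine low_aux (G := ∫ s in Ioi (0 : ℝ), deriv (gg u) s ^ 2) (P := ∫ p in hp, vs u p ^ 2)
    (Q := ∫ p in hp, D u p ^ 2) (A := ∫ s in Ioi (0 : ℝ), gg u s ^ 2)
    (nv := ∫ p in hp, vv u p ^ 2) (X := ∫ p in hp, vs u p * D u p)
    (Y := ∫ s in Ioi (0 : ℝ), deriv (gg u) s * ∫ t, gs t * D u (s, t))
    (Z := ∫ t, Real.sign t * vv u (0, t) ^ 2) (w := W u) (g0 := gg u 0) h0 h1.le SS_pos
    (by positivity) (by positivity) (by positivity) (by positivity) (by positivity) hg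
    (X_le hu) (crossY hu) (Z_le hu) ?_ (orth0 hu) ?_
  · have := W_le_VV hu
    rwa [VV_eq hu] at this
  · intro ε hε
    exact oned (gg_smooth hu).1 (gg_smooth hu).2 hε

end LeakyWire
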