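import Pool.Agent.Helper14.LW.UPaux
import Pool.Agent.Helper16.LW.CO
import Pool.Agent.Helper5.LW.PR
import Pool.Agent.Helper44.LW.TR

/-!
# MP_687a20_mp : module UP, the upper bound (assembled)
-/

open MeasureTheory Set Filter Topology
open scoped ContDiff

namespace LeakyWire

theorem upper : ∃ a τ₀ : ℝ, 0 < τ₀ ∧ ∀ τ, 0 < τ → τ < τ₀ → ∃ u, Test u ∧ 0 < N u ∧
    q τ u ≤ -((1 / 4 + (SS * τ ^ 2 / 8) ^ 2 * (1 - a * τ)) * N u) :=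
  upper_of SS_pos (fun _ h1 h2 => W_le h1 h2) (fun _ h1 h2 => N_le_V h1 h2)
    (fun _ h => exists_near h) (fun _ _ h1 h2 => exists_g h1 h2)
    (fun _ h1 _ h2 h3 => exists_phi h1 h2 h3)
    (fun _ _ _ h1 h2 h3 h4 h5 b => trial_test h1 h2 h3 h4 h5 b)
    (fun _ _ _ h1 h2 h3 h4 h5 h6 h7 b => trial_N h1 h2 h3 h4 h5 h6 h7 b)
    (fun _ _ _ h1 h2 h3 h4 h5 h6 h7 b t => trial_q h1 h2 h3 h4 h5 h6 h7 b t)
    (fun _ _ _ h1 h2 h3 h4 h5 => trial_cross h1 h2 h3 h4 h5)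

end LeakyWire
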