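import Pool.Agent.Helper27.LW.SC
import Pool.Agent.Helper27.LW.SP
import Pool.Agent.Helper69.LW.LO
import Pool.Agent.Helper69.LW.UP
import Pool.Agent.Helper22.LW.SH
import Pool.Agent.Helper23.LW.RE

/-!
# MP_687a20_mp : assembly
-/

open MeasureTheory Set Filter Topology
open scoped ContDiff

namespace LeakyWire

variable {f u w : ℝ × ℝ → ℝ}

theorem d1_smul (hf : Test f) (c : ℝ) (p : ℝ × ℝ) : d1 (fun p => c * f p) p = c * d1 f p := by
  unfold d1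
  rw [fderiv_const_mul (hf.diff p)]
  simp

theorem d2_smul (hf : Test f) (c : ℝ) (p : ℝ × ℝ) : d2 (fun p => c * f p) p = c * d2 f p := by
  unfold d2
  rw [fderiv_const_mul (hf.diff p)]
  simp

theorem mass_smul (f : ℝ × ℝ → ℝ) (c : ℝ) : mass (fun p => c * f p) = c ^ 2 * mass f := by
  unfold mass
  simp only [mul_pow]
  rw [integral_const_mul]

theorem form_smul (hf : Test f) (α θ c : ℝ) :
    form α θ (fun p => c * f p) = c ^ 2 * form α θ f := by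
  unfold form
  simp only [d1_smul hf, d2_smul hf, mul_pow, ← mul_add, integral_const_mul]
  ring

/-- The values of the form on normalized test functions. -/
def vals (α θ : ℝ) : Set ℝ := {r | ∃ f, Test f ∧ mass f = 1 ∧ r = form α θ f}

theorem lam_eq (α θ : ℝ) : lam α θ = sInf (vals α θ) := rfl

theorem lam_mul_le {α θ : ℝ} (hb : BddBelow (vals α θ)) (hf : Test f) (hm : 0 < mass f) :
    lam α θ * mass f ≤ form α θ f := by
  have h1 : (√(mass f))⁻¹ ^ 2 * mass f = 1 := by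
    rw [inv_pow, Real.sq_sqrt hm.le, inv_mul_cancel₀ hm.ne']
  have h2 : (√(mass f))⁻¹ ^ 2 * form α θ f ∈ vals α θ :=
    ⟨fun p => (√(mass f))⁻¹ * f p, hf.smul _, by rw [mass_smul, h1], by rw [form_smul hf]⟩
  have h3 := csInf_le hb h2
  rw [inv_pow, Real.sq_sqrt hm.le, ← lam_eq] at h3
  have h4 := mul_le_mul_of_nonneg_right h3 hm.le
  have h5 : (mass f)⁻¹ * form α θ f * mass f = form α θ f := by
    field_simp
  rwa [h5] at h4

theorem form_ge {θ E : ℝ} (hθ : 0 < Real.cos (θ / 2))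
    (h : ∀ u, Test u → -(E * N u) ≤ q (Real.tan (θ / 2)) u) (hf : Test f) :
    -(E * mass f) ≤ form 1 θ f := by
  have h1 := h _ (hf.half hθ)
  have h2 := h _ (hf.refl.half hθ)
  rw [q_half hf hθ, N_half _ hθ] at h1
  rw [q_half hf.refl hθ, N_half _ hθ] at h2
  rw [form_split hf, mass_split hf]
  linarith

theorem vals_bdd {θ E : ℝ} (hθ : 0 < Real.cos (θ / 2))
    (h : ∀ u, Test u → -(E * N u) ≤ q (Real.tan (θ / 2)) u) : -E ∈ lowerBounds (vals 1 θ) := by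
  rintro r ⟨f, hf, hm, rfl⟩
  have h1 := form_ge hθ h hf
  rwa [hm, mul_one] at h1

theorem lam_upper {θ E : ℝ} (hθ : 0 < Real.cos (θ / 2)) (hb : BddBelow (vals 1 θ))
    (hu : Test u) (hN : 0 < N u) (h : q (Real.tan (θ / 2)) u ≤ -(E * N u)) :
    (vals 1 θ).Nonempty ∧ lam 1 θ ≤ -E := by
  set F := unhalf θ u with hF
  have hFt : Test F := hu.unhalf hθ
  have e1 : half θ F = u := half_unhalf u hθ
  have e2 : hform θ F = q (Real.tan (θ / 2)) u := by rw [← q_half hFt hθ, e1]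
  have e3 : N F = N u := by rw [← N_half F hθ, e1]
  have key : ∀ δ : ℝ, 0 < δ → δ < N u → ∃ g, Test g ∧ 0 < mass g ∧
      lam 1 θ * (2 * N u) ≤ 2 * q (Real.tan (θ / 2)) u + δ * (1 + |lam 1 θ|) := by
    intro δ hδ hδN
    obtain ⟨g, hg, hg1, hg2⟩ := reflect hFt θ hθ hδ
    rw [e2] at hg1
    rw [e3] at hg2
    have h1 := abs_le.mp hg1
    have h2 := abs_le.mp hg2
    have hm : 0 < mass g := by linarith
    refine ⟨g, hg, hm, ?_⟩
    have h3 := lam_mul_le hb hg hm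
    have h4 : lam 1 θ * (2 * N u) = lam 1 θ * mass g - lam 1 θ * (mass g - 2 * N u) := by ring
    have h5 : -(lam 1 θ * (mass g - 2 * N u)) ≤ |lam 1 θ| * δ := by
      refine (neg_le_abs _).trans ?_
      rw [abs_mul]
      exact mul_le_mul_of_nonneg_left hg2 (abs_nonneg _)
    linarith
  constructor
  · obtain ⟨g, hg, hm, -⟩ := key (N u / 2) (by linarith) (by linarith)
    refine ⟨form 1 θ (fun p => (√(mass g))⁻¹ * g p), _, hg.smul _, ?_, rfl⟩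
    rw [mass_smul, inv_pow, Real.sq_sqrt hm.le, inv_mul_cancel₀ hm.ne']
  · have h1 : lam 1 θ * (2 * N u) ≤ 2 * q (Real.tan (θ / 2)) u := by
      refine le_of_forall_pos_le_add fun η hη => ?_
      set δ : ℝ := min (N u / 2) (η / (1 + |lam 1 θ|)) with hδ
      have h2 : 0 < 1 + |lam 1 θ| := by positivity
      have h3 : 0 < δ := lt_min (by linarith) (by positivity)
      obtain ⟨g, -, -, h4⟩ := key δ h3 ((min_le_left _ _).trans_lt (by linarith))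
      refine h4.trans ?_
      have h5 : δ * (1 + |lam 1 θ|) ≤ η := by
        refine (mul_le_mul_of_nonneg_right (min_le_right _ _) h2.le).trans ?_
        rw [div_mul_cancel₀ _ h2.ne']
      linarith
    have h6 : lam 1 θ * (2 * N u) ≤ -E * (2 * N u) := by linarith
    exact le_of_mul_le_mul_right h6 (by linarith)

/-- Elementary bounds for the tangent. -/
theorem tan_bounds {x : ℝ} (h0 : 0 < x) (h1 : x ≤ 1 / 2) :
    x ≤ Real.tan x ∧ Real.tan x ≤ x * (1 + x) := by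
  refine ⟨(Real.lt_tan h0 (by linarith [Real.pi_gt_three])).le, ?_⟩
  have hc : 1 - x ^ 2 / 2 ≤ Real.cos x := Real.one_sub_sq_div_two_le_cos
  have hc0 : 0 < 1 - x ^ 2 / 2 := by nlinarith
  have hs : Real.sin x ≤ x := Real.sin_le h0.le
  rw [Real.tan_eq_sin_div_cos, div_le_iff₀ (hc0.trans_le hc)]
  have h2 : x * (1 + x) * (1 - x ^ 2 / 2) ≤ x * (1 + x) * Real.cos x :=
    mul_le_mul_of_nonneg_left hc (by positivity)
  have h3 : x ≤ x * (1 + x) * (1 - x ^ 2 / 2) := by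
    have : 0 ≤ x ^ 2 * (1 - x / 2 - x ^ 2 / 2) := by
      have : 0 ≤ 1 - x / 2 - x ^ 2 / 2 := by nlinarith
      positivity
    nlinarith
  linarith

/-- The purely numerical part. -/
theorem num_aux {S a x τ l : ℝ} (hS : 0 < S) (ha : 0 ≤ a) (h0 : 0 < x) (h1 : x ≤ 1 / 2)
    (h2 : x ≤ τ) (h3 : τ ≤ x * (1 + x))
    (hl : -(1 / 4 + (S * τ ^ 2 / 8) ^ 2 * (1 + a * τ)) ≤ l)
    (hu : l ≤ -(1 / 4 + (S * τ ^ 2 / 8) ^ 2 * (1 - a * τ))) :
    |l + 1 / 4 + S ^ 2 / 64 * x ^ 4| ≤ S ^ 2 * (1 + a) * x ^ 5 := by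
  have h4 : (S * τ ^ 2 / 8) ^ 2 = S ^ 2 / 64 * τ ^ 4 := by ring
  rw [h4] at hl hu
  have hτ : τ ≤ 3 / 2 * x := by nlinarith
  have hτ0 : 0 < τ := h0.trans_le h2
  have h5 : x ^ 4 ≤ τ ^ 4 := by gcongr
  have h6 : τ ^ 4 ≤ x ^ 4 * (1 + x) ^ 4 := by
    calc τ ^ 4 ≤ (x * (1 + x)) ^ 4 := by gcongr
      _ = x ^ 4 * (1 + x) ^ 4 := by ring
  have h7 : (1 + x) ^ 4 ≤ 1 + 16 * x := by
    have g2 : x ^ 2 ≤ x := by nlinarith
    have g3 : x ^ 3 ≤ x := by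
      calc x ^ 3 = x ^ 2 * x := by ring
        _ ≤ 1 * x := by gcongr; nlinarith
        _ = x := one_mul x
    have g4 : x ^ 4 ≤ x := by
      calc x ^ 4 = x ^ 3 * x := by ring
        _ ≤ 1 * x := by gcongr; linarith
        _ = x := one_mul x
    calc (1 + x) ^ 4 = 1 + 4 * x + 6 * x ^ 2 + 4 * x ^ 3 + x ^ 4 := by ring
      _ ≤ 1 + 16 * x := by linarith
  have h8 : τ ^ 4 ≤ x ^ 4 + 16 * x ^ 5 := by
    have := mul_le_mul_of_nonneg_left h7 (by positivity : (0 : ℝ) ≤ x ^ 4)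
    nlinarith
  have h9 : τ ^ 5 ≤ 32 * x ^ 5 := by
    calc τ ^ 5 ≤ (3 / 2 * x) ^ 5 := by gcongr
      _ = 243 / 32 * x ^ 5 := by ring
      _ ≤ 32 * x ^ 5 := by nlinarith [pow_pos h0 5]
  have hS2 : 0 < S ^ 2 := by positivity
  rw [abs_le]
  constructor
  · have e1 : S ^ 2 / 64 * τ ^ 4 * (1 + a * τ) = S ^ 2 / 64 * (τ ^ 4 + a * τ ^ 5) := by ring
    rw [e1] at hl
    have e2 : S ^ 2 / 64 * (τ ^ 4 + a * τ ^ 5) ≤
        S ^ 2 / 64 * ((x ^ 4 + 16 * x ^ 5) + a * (32 * x ^ 5)) := by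
      gcongr
    nlinarith [mul_pos hS2 (pow_pos h0 5), mul_nonneg (mul_nonneg hS2.le ha) (pow_pos h0 5).le]
  · have e1 : S ^ 2 / 64 * τ ^ 4 * (1 - a * τ) = S ^ 2 / 64 * (τ ^ 4 - a * τ ^ 5) := by ring
    rw [e1] at hu
    have e2 : S ^ 2 / 64 * (x ^ 4 - a * (32 * x ^ 5)) ≤ S ^ 2 / 64 * (τ ^ 4 - a * τ ^ 5) := by
      gcongr
    nlinarith [mul_pos hS2 (pow_pos h0 5), mul_nonneg (mul_nonneg hS2.le ha) (pow_pos h0 5).le]

/-- Weak bending asymptotics for `α = 1`. -/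
theorem main_one : ∃ c C θ₀ : ℝ, 0 < c ∧ 0 < θ₀ ∧ ∀ θ, 0 < θ → θ < θ₀ →
    (vals 1 θ).Nonempty ∧ BddBelow (vals 1 θ) ∧
      |lam 1 θ + 1 / 4 + c * θ ^ 4| ≤ C * θ ^ 5 := by
  obtain ⟨a₁, τ₁, hτ₁, hlow⟩ := lower
  obtain ⟨a₂, τ₂, hτ₂, hup⟩ := upper
  set a : ℝ := max (max a₁ a₂) 0 with ha
  have ha0 : 0 ≤ a := le_max_right _ _
  have ha1 : a₁ ≤ a := (le_max_left _ _).trans (le_max_left _ _)
  have ha2 : a₂ ≤ a := (le_max_right _ _).trans (le_max_left _ _)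
  refine ⟨SS ^ 2 / 1024, SS ^ 2 * (1 + a) / 32, min 1 (min τ₁ τ₂), by
    have := SS_pos
    positivity, by positivity, ?_⟩
  intro θ h0 hθ
  have h1 : θ < 1 := hθ.trans_le (min_le_left _ _)
  have h2 : θ < τ₁ := hθ.trans_le ((min_le_right _ _).trans (min_le_left _ _))
  have h3 : θ < τ₂ := hθ.trans_le ((min_le_right _ _).trans (min_le_right _ _))
  set x : ℝ := θ / 2 with hx
  have hx0 : 0 < x := by linarith
  have hx1 : x ≤ 1 / 2 := by linarith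
  have hcos : 0 < Real.cos (θ / 2) :=
    Real.cos_pos_of_mem_Ioo ⟨by linarith [Real.pi_gt_three], by linarith [Real.pi_gt_three]⟩
  obtain ⟨ht1, ht2⟩ := tan_bounds hx0 hx1
  set τ : ℝ := Real.tan x with hτ
  have hτ0 : 0 < τ := hx0.trans_le ht1
  have hτθ : τ ≤ θ := by nlinarith
  have hl := hlow τ hτ0 (by linarith)
  obtain ⟨u, hu, hN, hq⟩ := hup τ hτ0 (by linarith)
  have hbd := vals_bdd hcos (E := 1 / 4 + (SS * τ ^ 2 / 8) ^ 2 * (1 + a₁ * τ)) hl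
  obtain ⟨hne, hupper⟩ := lam_upper hcos ⟨_, hbd⟩ hu hN hq
  refine ⟨hne, ⟨_, hbd⟩, ?_⟩
  have hlower : -(1 / 4 + (SS * τ ^ 2 / 8) ^ 2 * (1 + a₁ * τ)) ≤ lam 1 θ := le_csInf hne hbd
  have hE : 0 ≤ (SS * τ ^ 2 / 8) ^ 2 := by positivity
  have h4 := num_aux (l := lam 1 θ) SS_pos ha0 hx0 hx1 ht1 ht2
    (le_trans (by
      have := mul_le_mul_of_nonneg_left (mul_le_mul_of_nonneg_right ha1 hτ0.le) hE
      nlinarith) hlower)
    (hupper.trans (by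
      have := mul_le_mul_of_nonneg_left (mul_le_mul_of_nonneg_right ha2 hτ0.le) hE
      nlinarith))
  have e1 : SS ^ 2 / 64 * x ^ 4 = SS ^ 2 / 1024 * θ ^ 4 := by rw [hx]; ring
  have e2 : SS ^ 2 * (1 + a) * x ^ 5 = SS ^ 2 * (1 + a) / 32 * θ ^ 5 := by rw [hx]; ring
  rwa [e1, e2] at h4

theorem vals_scale (α θ : ℝ) (hα : 0 < α) : vals α θ = (fun r => α ^ 2 * r) '' vals 1 θ := by
  ext r
  constructor
  · rintro ⟨f, hf, hm, rfl⟩
    have hi : 0 < α⁻¹ := inv_pos.mpr hα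
    have hg : Test (scl α⁻¹ f) := hf.scl hi
    refine ⟨form 1 θ (scl α⁻¹ f), ⟨scl α⁻¹ f, hg, ?_, rfl⟩, ?_⟩
    · rw [mass_scl f hi, hm]
    · show α ^ 2 * _ = _
      rw [← form_scl hg θ hα, scl_scl f (mul_inv_cancel₀ hα.ne')]
  · rintro ⟨r, ⟨f, hf, hm, rfl⟩, rfl⟩
    refine ⟨scl α f, hf.scl hα, ?_, ?_⟩
    · rw [mass_scl f hα, hm]
    · rw [form_scl hf θ hα]

theorem vals_glb {α θ : ℝ} (hα : 0 < α) (hn : (vals 1 θ).Nonempty) (hb : BddBelow (vals 1 θ)) :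
    IsGLB (vals α θ) (lam α θ) := by
  refine isGLB_csInf ?_ ?_
  · change (vals α θ).Nonempty
    rw [vals_scale α θ hα]
    exact hn.image _
  · change BddBelow (vals α θ)
    rw [vals_scale α θ hα]
    obtain ⟨b, hb⟩ := hb
    refine ⟨α ^ 2 * b, ?_⟩
    rintro _ ⟨r, hr, rfl⟩
    exact mul_le_mul_of_nonneg_left (hb hr) (by positivity)

/-- Weak bending asymptotics. -/
theorem main_all (α : ℝ) (hα : 0 < α) : ∃ c C θ₀ : ℝ, 0 < c ∧ 0 < θ₀ ∧ ∀ θ, 0 < θ → θ < θ₀ →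
    IsGLB (vals α θ) (lam α θ) ∧ |lam α θ + α ^ 2 / 4 + c * θ ^ 4| ≤ C * θ ^ 5 := by
  obtain ⟨c, C, θ₀, hc, hθ₀, h⟩ := main_one
  refine ⟨α ^ 2 * c, α ^ 2 * C, θ₀, by positivity, hθ₀, fun θ h0 h1 => ?_⟩
  obtain ⟨h3, h4, h2⟩ := h θ h0 h1
  refine ⟨vals_glb hα h3 h4, ?_⟩
  rw [lam_scale α θ hα]
  have e : α ^ 2 * lam 1 θ + α ^ 2 / 4 + α ^ 2 * c * θ ^ 4 =
      α ^ 2 * (lam 1 θ + 1 / 4 + c * θ ^ 4) := by ring
  rw [e, abs_mul, abs_of_pos (by positivity : (0:ℝ) < α ^ 2)]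
  have := mul_le_mul_of_nonneg_left h2 (by positivity : (0:ℝ) ≤ α ^ 2)
  linarith

end LeakyWire
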